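import Mathlib

/-!
# Serre's conjecture over imaginary quadratic fields of class number one: data and known facts
-/

namespace Pool.Agent.N522.IQ

/-- Mod `p` representations for an imaginary quadratic field `K` of class number one and a prime
`p ≥ 5` that is unramified in `K`; `q` is the prime that divides the discriminant of `K`. -/
structure Theory where
  /-- the data of Q1 for `K` and `p`: representations `ρ̄` of `G_K` (or elliptic curves over `K` with
  their representations) that satisfy all hypotheses of Q1 and have cyclotomic determinant -/
  Rep : Type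
  /-- irreducible continuous representations `G_ℚ → GL₂(𝔽̄_p)` -/
  Rep0 : Type
  /-- `Rest r0 r`: the restriction of `r0` to `G_K` is `ρ̄` -/
  Rest : Rep0 → Rep → Prop
  /-- the twist by the quadratic character of `K` -/
  tw : Rep0 → Rep0
  /-- the determinant is the cyclotomic character -/
  DetCyc : Rep0 → Prop
  /-- the determinant is the cyclotomic character times the quadratic character of `K` -/
  DetTw : Rep0 → Prop
  /-- odd -/
  Odd : Rep0 → Prop
  /-- finite flat at `p` -/
  Flat : Rep0 → Prop
  /-- unramified at `q` -/
  Unr0 : Rep0 → Prop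
  /-- `ρ̄` is isomorphic to its conjugate under the nontrivial automorphism of `K` -/
  Inv : Rep → Prop
  /-- `ρ̄` is unramified at the prime above `q` -/
  Unr : Rep → Prop
  /-- `r0` comes from a newform of weight two for `Γ_0` of the Serre conductor of `r0` -/
  New : Rep0 → Prop
  /-- the conclusion of Q1 -/
  Mod : Rep → Prop

variable {T : Theory}

/-- Known facts. -/
structure Facts (T : Theory) : Prop where
  /-- an invariant irreducible representation extends because `Gal(K/ℚ)` is cyclic; the extension has
  one of the two determinants because the restriction has cyclotomic determinant -/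
  ext : ∀ r, T.Inv r → ∃ r0, T.Rest r0 r ∧ (T.DetCyc r0 ∨ T.DetTw r0)
  /-- the quadratic character is trivial on `G_K` -/
  tw_rest : ∀ r0 r, T.Rest r0 r → T.Rest (T.tw r0) r
  /-- its square is trivial -/
  tw_det : ∀ r0, T.DetCyc r0 → T.DetCyc (T.tw r0)
  /-- inertia at `q` acts through a group of order two, by a scalar because the determinant is
  unramified at `q` -/
  unr : ∀ r0 r, T.Rest r0 r → T.DetCyc r0 → T.Unr r → T.Unr0 r0 ∨ T.Unr0 (T.tw r0)
  /-- the cyclotomic character is odd -/
  odd : ∀ r0, T.DetCyc r0 → T.Odd r0
  /-- descent of finite flat representations along unramified extensions -/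
  flat : ∀ r0 r, T.Rest r0 r → T.Flat r0
  /-- Serre's conjecture (Khare-Wintenberger, Kisin), with level and weight -/
  serre : ∀ r0, T.Odd r0 → T.DetCyc r0 → T.Flat r0 → T.New r0
  /-- Base change (Langlands) of the newform is a cuspidal Bianchi form, of level the conductor
  of `ρ̄` because `K/ℚ` is unramified at the primes of the level; reduction of its integral class. -/
  baseChange : ∀ r0 r, T.New r0 → T.Unr0 r0 → T.Rest r0 r → T.Mod r

theorem mod_of_rest (F : Facts T) (r : T.Rep) (h : T.Unr r) (r0 : T.Rep0) (hr : T.Rest r0 r)
    (hd : T.DetCyc r0) : T.Mod r := by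
  rcases F.unr r0 r hr hd h with h1 | h1
  · exact F.baseChange r0 r (F.serre r0 (F.odd r0 hd) hd (F.flat r0 r hr)) h1 hr
  · have h2 := F.tw_rest r0 r hr
    have h3 := F.tw_det r0 hd
    exact F.baseChange _ r (F.serre _ (F.odd _ h3) h3 (F.flat _ r h2)) h1 h2

/-- Invariant representations: only those that extend with the even determinant remain. -/
theorem mod_of_inv (F : Facts T) (r : T.Rep) (h : T.Unr r) (hi : T.Inv r)
    (hn : ∀ r0, T.Rest r0 r → ¬ T.DetTw r0) : T.Mod r := by
  obtain ⟨r0, h1, h2⟩ := F.ext r hi
  exact mod_of_rest F r h r0 h1 (h2.resolve_right (hn r0 h1))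

end Pool.Agent.N522.IQ
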